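import Pool.Agent.Q82.BB.Fin

/-!
Solutions of the bad Boussinesq equation whose derivatives of weighted order at most `q` are bounded
and for which the derivative `∂_x^(q+1) u` is unbounded near two points.
-/

set_option autoImplicit false

open MeasureTheory Filter Topology Set

namespace Pool.Agent.Results.MP_0afb51_an.MultiPointDerivative

/-- The bad Boussinesq equation at the point `(x, t)`. -/
def BadBoussinesq (u : ℝ → ℝ → ℝ) (x t : ℝ) : Prop :=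
  iteratedDeriv 2 (fun t => u x t) t =
    iteratedDeriv 2 (fun x => u x t) x + iteratedDeriv 2 (fun x => u x t ^ 2) x +
      iteratedDeriv 4 (fun x => u x t) x

/-- A Schwartz class solution on `ℝ × [0, T)`. It is smooth in the larger open set `ℝ × (-1, T)`, so
that all derivatives at `t = 0` are ordinary ones. -/
def SchwartzSolution (T : ℝ) (u : ℝ → ℝ → ℝ) : Prop :=
  (∀ n : ℕ, ContDiffOn ℝ n (fun q : ℝ × ℝ => u q.1 q.2) (univ ×ˢ Ioo (-1) T)) ∧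
  (∀ x : ℝ, ∀ t ∈ Ico 0 T, BadBoussinesq u x t) ∧
  ∀ (N : ℕ) (τ : ℝ), τ ∈ Ico 0 T → ∃ C : ℝ, ∀ x : ℝ, ∀ t ∈ Icc 0 τ,
    ∑ i ∈ Finset.range (N + 1), (1 + |x|) ^ N * |iteratedDeriv i (fun x => u x t) x| ≤ C

/-- The mixed derivative `∂_x^i ∂_t^j u`. -/
noncomputable def mixed (i j : ℕ) (u : ℝ → ℝ → ℝ) (x t : ℝ) : ℝ :=
  iteratedDeriv i (fun x => iteratedDeriv j (fun t => u x t) t) x

/-- The function `f` is bounded on `ℝ × [0, T)`. -/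
def BoundedOn (T : ℝ) (f : ℝ → ℝ → ℝ) : Prop :=
  ∃ C : ℝ, ∀ x : ℝ, ∀ t ∈ Ico 0 T, |f x t| ≤ C

/-- The function `f` is unbounded near the point `p`. -/
def UnboundedNear (T : ℝ) (f : ℝ → ℝ → ℝ) (p : ℝ × ℝ) : Prop :=
  ∀ U ∈ 𝓝 p, ∀ M : ℝ, ∃ q ∈ U, q.2 ∈ Ico 0 T ∧ M < |f q.1 q.2|

theorem result (T : ℝ) (hT : 0 < T) (q : ℕ) :
    ∃ u : ℝ → ℝ → ℝ, SchwartzSolution T u ∧
      (∀ q₁ q₂ : ℕ, q₁ + 2 * q₂ ≤ q → BoundedOn T (mixed q₁ q₂ u)) ∧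
      ∃ q₁ q₂ : ℕ, q₁ + 2 * q₂ = q + 1 ∧ ∃ p₁ p₂ : ℝ × ℝ, p₁ ≠ p₂ ∧ p₁.2 ∈ Icc 0 T ∧
        p₂.2 ∈ Icc 0 T ∧ UnboundedNear T (mixed q₁ q₂ u) p₁ ∧ UnboundedNear T (mixed q₁ q₂ u) p₂ := by
  obtain ⟨u, h1, h2, h3, h4, h5⟩ := Pool.Agent.Q82.BB.main_all T (q + 1) hT
  have key : ∀ x : ℝ, (x = 1 ∨ x = -1) → UnboundedNear T (mixed (q + 1) 0 u) (x, T) := by
    intro x hx U hU M
    have h := h5 x hx
    have e1 : ∀ᶠ t in 𝓝[<] T, M < iteratedDeriv (q + 1) (fun x => u x t) x :=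
      h.eventually_gt_atTop M
    have e2 : ∀ᶠ t in 𝓝[<] T, t ∈ Ioo 0 T := Ioo_mem_nhdsLT hT
    have e3 : ∀ᶠ t in 𝓝[<] T, (x, t) ∈ U := by
      have : Tendsto (fun t : ℝ => (x, t)) (𝓝[<] T) (𝓝 (x, T)) :=
        (Continuous.prodMk_right x).continuousAt.tendsto.mono_left nhdsWithin_le_nhds
      exact this hU
    obtain ⟨t, ht1, ht2, ht3⟩ := (e1.and (e2.and e3)).exists
    refine ⟨(x, t), ht3, ⟨ht2.1.le, ht2.2⟩, ?_⟩
    have e : mixed (q + 1) 0 u x t = iteratedDeriv (q + 1) (fun x => u x t) x := by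
      unfold mixed
      simp only [iteratedDeriv_zero]
    show M < |mixed (q + 1) 0 u x t|
    rw [e]
    exact lt_of_lt_of_le ht1 (le_abs_self _)
  refine ⟨u, ⟨h1, fun x t ht => h2 x t ⟨by linarith [ht.1], ht.2⟩, ?_⟩, ?_, q + 1, 0, by omega,
    (1, T), (-1, T), ?_, ⟨hT.le, le_rfl⟩, ⟨hT.le, le_rfl⟩, key 1 (Or.inl rfl), key (-1) (Or.inr rfl)⟩
  · intro N τ hτ
    obtain ⟨C, hC⟩ := h3 N τ hτ.2
    refine ⟨∑ i ∈ Finset.range (N + 1), C, fun x t ht => Finset.sum_le_sum fun i hi => ?_⟩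
    exact hC x t ht i (Nat.lt_succ_iff.1 (Finset.mem_range.1 hi))
  · intro q₁ q₂ hq
    exact h4 q₁ q₂ (by omega)
  · intro h
    have := congrArg Prod.fst h
    norm_num at this

end Pool.Agent.Results.MP_0afb51_an.MultiPointDerivative
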